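import Mathlib
import Pool.Graph.R_pool_sql_team_seeded_2aa45f1a.Q204.YM.Pot

/-!
# The joint limit of a logarithmically convex double sequence
-/

open MeasureTheory Matrix Filter
open scoped Matrix.Norms.Frobenius Topology
open Pool.Agent.H906R3.YM hiding Pl
open Pool.Agent.W793.YM Pool.Agent.TH618.YM

namespace Pool.Agent.H55.YM

set_option linter.unusedSectionVars false
set_option linter.unusedVariables false

noncomputable section

/-- the limit as both sides tend to infinity -/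
lemma joint {w : ℕ → ℕ → ℝ} (h0 : ∀ T, w 0 T = 1) (h0' : ∀ R, w R 0 = 1)
    (hpos : ∀ R T, 0 < w R T) (hc : ∀ R T, w (R + 1) T ^ 2 ≤ w R T * w (R + 2) T)
    (hc' : ∀ R T, w R (T + 1) ^ 2 ≤ w R T * w R (T + 2)) {P : ℕ → ℝ} {σ : ℝ}
    (hP : ∀ R, Tendsto (fun T : ℕ => -Real.log (w R T) / T) atTop (𝓝 (P R)))
    (hσ : Tendsto (fun R : ℕ => P R / R) atTop (𝓝 σ))
    (hPle : ∀ R T : ℕ, 1 ≤ T → P R ≤ -Real.log (w R T) / T)
    (hσle : ∀ R : ℕ, 1 ≤ R → σ ≤ P R / R) :
    Tendsto (fun p : ℕ × ℕ => -Real.log (w p.1 p.2) / (p.1 * p.2)) (atTop ×ˢ atTop) (𝓝 σ) := by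
  obtain ⟨f, hf⟩ : ∃ f : ℕ → ℕ → ℝ, f = fun R T => -Real.log (w R T) := ⟨_, rfl⟩
  have f0 : ∀ T, f 0 T = 0 := fun T => by
    rw [hf]; simp only [h0, Real.log_one, neg_zero]
  have f0' : ∀ R, f R 0 = 0 := fun R => by
    rw [hf]; simp only [h0', Real.log_one, neg_zero]
  have fc : ∀ R T, f R T + f (R + 2) T ≤ 2 * f (R + 1) T := fun R T => by
    rw [hf]; exact log_conc (hpos _ _) (hpos _ _) (hpos _ _) (hc R T)
  have fc' : ∀ R T, f R T + f R (T + 2) ≤ 2 * f R (T + 1) := fun R T => by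
    rw [hf]; exact log_conc (hpos _ _) (hpos _ _) (hpos _ _) (hc' R T)
  have hlow : ∀ R T : ℕ, 1 ≤ R → 1 ≤ T → σ ≤ f R T / (R * T) := by
    intro R T hR hT
    have hR0 : (0 : ℝ) < R := by exact_mod_cast hR
    have h1 := hPle R T hT
    have h2 := hσle R hR
    have h3 : P R / R ≤ (-Real.log (w R T) / T) / R := div_le_div_of_nonneg_right h1 hR0.le
    rw [hf]
    simp only
    rw [mul_comm (R : ℝ), ← div_div]
    exact h2.trans h3
  have e : (fun p : ℕ × ℕ => -Real.log (w p.1 p.2) / (p.1 * p.2)) =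
      fun p : ℕ × ℕ => f p.1 p.2 / ((p.1 : ℝ) * p.2) := by rw [hf]
  rw [e, tendsto_order]
  constructor
  · intro a ha
    filter_upwards [(eventually_ge_atTop 1).prod_mk (eventually_ge_atTop 1)] with p hp
    exact ha.trans_le (hlow p.1 p.2 hp.1 hp.2)
  · intro a ha
    -- a good pair of sides
    obtain ⟨R1, hR1, hR1'⟩ : ∃ R1 : ℕ, 1 ≤ R1 ∧ P R1 / R1 < (σ + a) / 2 := by
      have h1 : ∀ᶠ R : ℕ in atTop, P R / R < (σ + a) / 2 :=
        hσ.eventually_lt_const (by linarith)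
      obtain ⟨R1, h2, h3⟩ := (h1.and (eventually_ge_atTop 1)).exists
      exact ⟨R1, h3, h2⟩
    have hR0 : (0 : ℝ) < R1 := by exact_mod_cast hR1
    obtain ⟨T1, hT1, hT1'⟩ : ∃ T1 : ℕ, 1 ≤ T1 ∧ f R1 T1 / T1 < a * R1 := by
      have h1 : P R1 < a * R1 := by
        rw [div_lt_iff₀ hR0] at hR1'
        have : (σ + a) / 2 * R1 ≤ a * R1 := mul_le_mul_of_nonneg_right (by linarith) hR0.le
        linarith
      have h2 : ∀ᶠ T : ℕ in atTop, -Real.log (w R1 T) / T < a * R1 :=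
        (hP R1).eventually_lt_const h1
      obtain ⟨T1, h3, h4⟩ := (h2.and (eventually_ge_atTop 1)).exists
      refine ⟨T1, h4, ?_⟩
      rw [hf]
      exact h3
    have hT0 : (0 : ℝ) < T1 := by exact_mod_cast hT1
    have hgood : f R1 T1 < a * (R1 * T1) := by
      rw [div_lt_iff₀ hT0] at hT1'
      linarith
    filter_upwards [(eventually_ge_atTop R1).prod_mk (eventually_ge_atTop T1)] with p hp
    obtain ⟨R, T⟩ := p
    obtain ⟨hR, hT⟩ := hp
    simp only at hR hT ⊢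
    have hR' : (0 : ℝ) < R := by exact_mod_cast (by omega : 0 < R)
    have hT' : (0 : ℝ) < T := by exact_mod_cast (by omega : 0 < T)
    have h1 := Pool.Agent.Q204.PL.concave_ratio (f := fun R => f R T) (f0 T) (fun k => fc k T)
      hR1 hR
    have h2 := Pool.Agent.Q204.PL.concave_ratio (f := fun T => f R1 T) (f0' R1) (fc' R1) hT1 hT
    rw [div_lt_iff₀ (by positivity)]
    calc f R T ≤ R / R1 * f R1 T := h1
      _ ≤ R / R1 * (T / T1 * f R1 T1) := mul_le_mul_of_nonneg_left h2 (by positivity)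
      _ < R / R1 * (T / T1 * (a * (R1 * T1))) :=
          mul_lt_mul_of_pos_left (mul_lt_mul_of_pos_left hgood (by positivity)) (by positivity)
      _ = a * (R * T) := by field_simp

end

end Pool.Agent.H55.YM
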