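import Mathlib
import Pool.Graph.R_pool_sql_team_seeded_1acbe0a2.Y15.Zl4
import Pool.Graph.R_pool_sql_team_seeded_2aa45f1a.Q204.YM.Perim

/-!
# The energy of the chains, with the perimeter law up to the scale `β`
-/

open MeasureTheory Matrix Filter
open scoped Matrix.Norms.Frobenius Topology
open Pool.Agent.H906R3.YM hiding Pl
open Pool.Agent.W793.YM hiding dest
open Pool.Agent.TH618.YM Pool.Agent.Y15

namespace Pool.Agent.H55.YM

set_option linter.unusedSectionVars false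
set_option linter.unusedVariables false

noncomputable section

/-- the constant of the distance of the halves of a rectangle -/
def cP (N d : ℕ) : ℝ := 2 * N * Real.sqrt (Pool.Agent.Q204.PL.Cd d)

lemma cP_pos {N : ℕ} (hN : 1 ≤ N) (d : ℕ) : 0 < cP N d := by
  unfold cP Pool.Agent.Q204.PL.Cd
  have h1 : (0 : ℝ) < N := by exact_mod_cast hN
  positivity

/-- a constant -/
def kO (N d : ℕ) : ℝ := min (1 / 6) ((1 / (90 * cP N d)) ^ 2)

/-- the threshold -/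
def tO (N d : ℕ) : ℝ := max (1 / kO N d) 3

/-- the constant of the bound of the energy -/
def KO (N d : ℕ) : ℝ := 22176 * cN N / kO N d ^ 2

/-- the rate -/
def rO (N d : ℕ) (β : ℝ) : ℝ := KO N d * Real.log β / β ^ 3

lemma tO_three (N d : ℕ) : 3 ≤ tO N d := le_max_right _ _

/-- the scale -/
lemma scale' {cA' c1 : ℝ} (hcA : 0 < cA') (hc1 : c1 = min (1 / 6) ((1 / (90 * cA')) ^ 2)) :
    0 < c1 ∧ ∀ β : ℝ, max (1 / c1) 3 ≤ β →
    1 ≤ Real.log β ∧ ∃ q : ℕ, 6 * (2 : ℝ) ^ q ≤ β ∧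
      45 * (cA' / Real.sqrt β) * Real.sqrt (2 ^ q) ≤ 1 / 2 ∧
      (1 : ℝ) / 2 ^ q ≤ 2 / (c1 * β) := by
  have hc0 : 0 < c1 := by rw [hc1]; exact lt_min (by norm_num) (by positivity)
  have h6 : c1 ≤ 1 / 6 := by rw [hc1]; exact min_le_left _ _
  have h90 : c1 ≤ (1 / (90 * cA')) ^ 2 := by rw [hc1]; exact min_le_right _ _
  refine ⟨hc0, fun β hβ => ?_⟩
  have hβ3 : 3 ≤ β := (le_max_right _ _).trans hβ
  have hβ0 : 0 < β := by linarith
  have hl1 : 1 ≤ Real.log β := by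
    rw [Real.le_log_iff_exp_le hβ0]
    have := Real.exp_one_lt_d9
    linarith
  have hx : 1 ≤ c1 * β := by
    have g1 : 1 / c1 ≤ β := (le_max_left _ _).trans hβ
    rw [div_le_iff₀ hc0] at g1
    linarith
  obtain ⟨q, hq1, hq2⟩ := exists_nat_pow_near hx (by norm_num : (1 : ℝ) < 2)
  refine ⟨hl1, q, by nlinarith, ?_, ?_⟩
  · have h1 : Real.sqrt (2 ^ q) ≤ Real.sqrt c1 * Real.sqrt β := by
      rw [← Real.sqrt_mul hc0.le]
      exact Real.sqrt_le_sqrt hq1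
    have h3 : Real.sqrt c1 ≤ 1 / (90 * cA') := by
      rw [← Real.sqrt_sq (by positivity : 0 ≤ 1 / (90 * cA'))]
      exact Real.sqrt_le_sqrt h90
    have h4 : 0 < Real.sqrt β := Real.sqrt_pos.2 hβ0
    calc 45 * (cA' / Real.sqrt β) * Real.sqrt (2 ^ q) ≤
        45 * (cA' / Real.sqrt β) * (Real.sqrt c1 * Real.sqrt β) :=
          mul_le_mul_of_nonneg_left h1 (by positivity)
      _ = 45 * cA' * Real.sqrt c1 := by field_simp
      _ ≤ 45 * cA' * (1 / (90 * cA')) := mul_le_mul_of_nonneg_left h3 (by positivity)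
      _ = 1 / 2 := by field_simp; norm_num
  · have h1 : c1 * β < 2 * 2 ^ q := by
      rw [pow_succ (2 : ℝ) q] at hq2; linarith
    rw [div_le_div_iff₀ (by positivity) (by positivity), one_mul]
    exact h1.le

lemma kO_pos {N : ℕ} (hN : 1 ≤ N) (d : ℕ) : 0 < kO N d := (scale' (cP_pos hN d) rfl).1

lemma KO_pos {N : ℕ} (hN : 1 ≤ N) (d : ℕ) : 0 < KO N d := by
  have h1 := kO_pos hN d
  have h2 := cN_pos hN
  unfold KO
  positivity

variable {G : Type*} [Group G] [TopologicalSpace G]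
  [IsTopologicalGroup G] [CompactSpace G] [SecondCountableTopology G] [MeasurableSpace G]
  [BorelSpace G] (μ : Measure G) [IsProbabilityMeasure μ] [μ.IsMulLeftInvariant]
  [μ.IsMulRightInvariant] [μ.IsInvInvariant] {N n' : ℕ} {L : LD G N n'}
  {d : ℕ}

/-- the two halves of a rectangle with sides up to `K` are at distance `O(√(K / β))` -/
lemma uu_low (hN : 1 ≤ N) (hd : 4 ≤ d) {β : ℝ} (hβ : 0 < β) (m : ℕ) [NeZero m] (hm : 2 ≤ m)
    {i j : Fin d} (hi : i ≠ j) (a b K : ℕ) (ha : a ≤ K) (hb : b ≤ K) (hKm : K < m) :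
    Y15.uu μ L m β i j a b ≤ cP N d * Real.sqrt (K / β) := by
  have h1 := Pool.Agent.Q204.PL.perim μ (L := L) (m := m) hm hN hd hβ hi (R := a) (T := b)
    (by omega) (by omega)
  have hC : 0 ≤ Pool.Agent.Q204.PL.Cd d := by unfold Pool.Agent.Q204.PL.Cd; positivity
  have ha' : (a : ℝ) ≤ K := by exact_mod_cast ha
  have hb' : (b : ℝ) ≤ K := by exact_mod_cast hb
  have hK0 : (0 : ℝ) ≤ K := Nat.cast_nonneg _
  have h2 : 2 * N * (1 - wR2 μ L m β i j a b) ≤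
      (2 * N * Real.sqrt (Pool.Agent.Q204.PL.Cd d)) ^ 2 * (K / β) := by
    rw [mul_pow, Real.sq_sqrt hC]
    have h3 : Pool.Agent.Q204.PL.Cd d * N * (a + b) / β ≤
        Pool.Agent.Q204.PL.Cd d * N * (2 * K) / β := by
      refine div_le_div_of_nonneg_right ?_ hβ.le
      exact mul_le_mul_of_nonneg_left (by linarith) (by positivity)
    calc 2 * N * (1 - wR2 μ L m β i j a b) ≤
        2 * N * (Pool.Agent.Q204.PL.Cd d * N * (2 * K) / β) :=
          mul_le_mul_of_nonneg_left (h1.trans h3) (by positivity)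
      _ = _ := by ring
  unfold Y15.uu cP
  refine (Real.sqrt_le_sqrt h2).trans (le_of_eq ?_)
  rw [Real.sqrt_mul (by positivity), Real.sqrt_sq (by positivity)]

lemma e_le' {β : ℝ} (hβ : 0 < β) (hl : 1 ≤ Real.log β) {N q : ℕ} {c0 κ e c1 : ℝ}
    (hc1 : 0 < c1) (hc0 : c0 = 2 * N ^ 2 / β)
    (hκ : κ = N * (c0 * (1 + c0) ^ (6 * 2 ^ q))) (he : e = κ * (28 * (3 * q + 1) / 2 ^ q))
    (hq : 6 * (2 : ℝ) ^ q ≤ β) (hq2 : (1 : ℝ) / 2 ^ q ≤ 2 / (c1 * β)) :
    66 * e / 2 ^ (q + 1) ≤ 22176 * cN N / c1 ^ 2 * Real.log β / β ^ 3 := by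
  have hk := kap_le hβ hc0 hκ hq
  have hk0 : 0 ≤ cN N / β := div_nonneg (cN_nonneg N) hβ.le
  have h1 := q_log hq hl
  have h2 : (0 : ℝ) < 2 ^ q := by positivity
  have h3 : e ≤ cN N / β * (28 * (6 * Real.log β) * (2 / (c1 * β))) := by
    rw [he]
    have h4 : 28 * (3 * q + 1 : ℝ) / 2 ^ q ≤ 28 * (6 * Real.log β) *
        (2 / (c1 * β)) := by
      rw [div_eq_mul_one_div]
      refine mul_le_mul (by linarith) hq2 (by positivity) (by positivity)
    exact mul_le_mul hk h4 (by positivity) hk0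
  have h5 : 66 * e / 2 ^ (q + 1) = 33 * e * (1 / 2 ^ q) := by
    rw [pow_succ]; field_simp; ring
  rw [h5]
  have h6 : 0 ≤ cN N / β * (28 * (6 * Real.log β) * (2 / (c1 * β))) := by
    positivity
  calc 33 * e * (1 / 2 ^ q) ≤ 33 * (cN N / β * (28 * (6 * Real.log β) *
        (2 / (c1 * β)))) * (2 / (c1 * β)) :=
        mul_le_mul (by linarith) hq2 (by positivity) (by positivity)
    _ = _ := by field_simp; ring

/-- **The energy of the chains.** -/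
theorem soft_state' (hN : 1 ≤ N) (hd : 4 ≤ d) : ∀ β : ℝ, tO N d ≤ β →
      ∀ i j k τ : Fin d, i ≠ j → i ≠ k → j ≠ k → i ≠ τ → j ≠ τ → k ≠ τ →
      ∀ s : ℕ → ℕ, Tendsto s atTop atTop → ∃ q R₀ : ℕ, ∀ R : ℕ, R₀ ≤ R →
      ∃ n r : ℕ, R = n * 2 ^ (q + 1) + r ∧ ∃ a : ℝ, 0 < a ∧ ∀ (t : ℕ) (w : ℝ),
        Tendsto (fun x => Wc (m := s x + 1) μ L τ (pt i (eT τ) 0)
          (pt i (eT τ) ((n * 2 ^ (q + 1) : ℕ) : ZMod (2 * (s x + 1))) + r • eT i) β
          (PS L (fun _ => (Fintype.card (Ch q n) : ℝ)⁻¹) (wS i j k q n r (pt i (eT τ) 0)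
            (pt i (eT τ) ((n * 2 ^ (q + 1) : ℕ) : ZMod (2 * (s x + 1)))))) t)
          (hyperfilter ℕ : Filter ℕ) (𝓝 w) →
        a * Real.exp (-(rO N d β * R * t)) ≤ w := by
  obtain ⟨c1, hcc⟩ : ∃ c1, c1 = kO N d := ⟨_, rfl⟩
  obtain ⟨hc1, hsc⟩ := scale' (cP_pos hN d) hcc
  have hcN := cN_pos hN
  intro β hβ i j k τ hij hik hjk hiτ hjτ hkτ s hs
  have hCO : rO N d β = 22176 * cN N / c1 ^ 2 * Real.log β / β ^ 3 := by rw [hcc]; rfl
  rw [hCO]
  have hβ3 : 3 ≤ β := (tO_three N d).trans hβ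
  unfold tO at hβ
  rw [← hcc] at hβ
  have hβ0 : 0 < β := by linarith
  have hN' : (1 : ℝ) ≤ N := by exact_mod_cast hN
  obtain ⟨hl1, q, hq6, hδ, hq2⟩ := hsc β hβ
  obtain ⟨c0, hc0⟩ : ∃ c0 : ℝ, c0 = (Fintype.card (Cx N) : ℝ) * (1 / (2 * (β / 2))) := ⟨_, rfl⟩
  have hc0' : c0 = 2 * N ^ 2 / β := by
    rw [hc0, card_Cx]; field_simp
  have hc00 : 0 < c0 := by rw [hc0']; positivity
  obtain ⟨κ, hκ⟩ : ∃ κ : ℝ, κ = N * (c0 * (1 + c0) ^ (6 * 2 ^ q)) := ⟨_, rfl⟩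
  have hκ0 : 0 < κ := by rw [hκ]; positivity
  obtain ⟨e, he⟩ : ∃ e : ℝ, e = κ * (28 * (3 * q + 1) / 2 ^ q) := ⟨_, rfl⟩
  have he0 : 0 < e := by rw [he]; positivity
  have hrate := e_le' hβ0 hl1 hc1 hc0' hκ he hq6 hq2
  have hbig : ∀ M : ℕ, ∀ᶠ r in (hyperfilter ℕ : Filter ℕ), M ≤ s r + 1 := by
    intro M
    have h1 : ∀ᶠ r in atTop, M ≤ s r := hs.eventually_ge_atTop M
    filter_upwards [h1.filter_mono Nat.hyperfilter_le_atTop] with r hr
    omega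
  obtain ⟨κ', hκ'⟩ : ∃ κ' : ℝ, κ' = cP N d / Real.sqrt β := ⟨_, rfl⟩
  have hsβ : 0 < Real.sqrt β := Real.sqrt_pos.2 hβ0
  have hcA := cP_pos hN d
  have hκ'0 : 0 ≤ κ' := by
    rw [hκ']
    positivity
  have hov : ∀ᶠ r in (hyperfilter ℕ : Filter ℕ),
      (1 / 64) * cS μ L i j k β q (β / 2) (s r + 1) (true, []) (true, []) ≤
        cS μ L i j k β q (β / 2) (s r + 1) (true, []) (hd1 (1, 0) (true, [])) ∧
      1 ≤ cS μ L i j k β q (β / 2) (s r + 1) (true, []) (true, []) := by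
    filter_upwards [hbig 2, hbig (2 ^ (q + 1) + 1), hbig (3 * 2 ^ q)] with r h1 h2 h3
    refine te_overlap μ hij hik hjk h1 hN (by omega) hκ'0 (fun t ht a b ha hb => ?_) ?_ _
    · have h7 : 2 ^ t < s r + 1 := by
        have := Nat.pow_le_pow_right (n := 2) (by norm_num) ht
        omega
      have h8 : κ' * Real.sqrt (2 ^ t) = cP N d * Real.sqrt (((2 ^ t : ℕ) : ℝ) / β) := by
        push_cast
        rw [Real.sqrt_div (by positivity), hκ']; ring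
      rw [h8]
      exact ⟨uu_low μ hN hd hβ0 (s r + 1) h1 (Ne.symm hik) a b (2 ^ t) ha hb h7,
        uu_low μ hN hd hβ0 (s r + 1) h1 (Ne.symm hij) a b (2 ^ t) ha hb h7,
        uu_low μ hN hd hβ0 (s r + 1) h1 (Ne.symm hjk) a b (2 ^ t) ha hb h7⟩
    · rw [hκ']
      refine hδ.trans ?_
      have : 1 ≤ Real.sqrt N := by
        rw [show (1 : ℝ) = Real.sqrt 1 by rw [Real.sqrt_one]]
        exact Real.sqrt_le_sqrt hN'
      linarith
  obtain ⟨Qf, Pf, hQ0, hQl, hPl, hgr⟩ := soft_limit μ (L := L) hN hij hik hjk (β := β) (q := q)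
    (b := β / 2) (by positivity) hc0 hκ he hs hov
  obtain ⟨Ce, hCe, hgr'⟩ := hgr e he0
  obtain ⟨R₀, hR₀⟩ := exists_nat_ge ((2 ^ (q + 2) * c0 + |Real.log (2 * Ce)|) * 2 ^ (q + 1) / e)
  refine ⟨q, R₀, fun R hR => ?_⟩
  obtain ⟨ν, hν⟩ : ∃ ν, ν = R / 2 ^ (q + 2) := ⟨_, rfl⟩
  obtain ⟨r, hr⟩ : ∃ r, r = R % 2 ^ (q + 2) := ⟨_, rfl⟩
  have hRr : R = 2 * ν * 2 ^ (q + 1) + r := by
    rw [hν, hr]
    have h1 := Nat.div_add_mod R (2 ^ (q + 2))
    have h2 : 2 ^ (q + 2) = 2 * 2 ^ (q + 1) := by rw [pow_succ]; ring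
    rw [h2] at h1 ⊢
    nlinarith
  have hr2 : r < 2 ^ (q + 2) := by rw [hr]; exact Nat.mod_lt _ (by positivity)
  refine ⟨2 * ν, r, hRr, Qf ν, hQ0 ν, fun t w hw => ?_⟩
  obtain ⟨A, hA⟩ : ∃ A : ℝ, A = (1 + e / (1 / 64)) * Real.exp e := ⟨_, rfl⟩
  have hA0 : 0 < A := by rw [hA]; positivity
  obtain ⟨P', hP'⟩ : ∃ P' : ℝ, P' = 2 * Ce * A ^ (2 * ν) * Qf ν := ⟨_, rfl⟩
  have hQν := hQ0 ν
  have hP'0 : 0 < P' := by rw [hP']; positivity
  have hPP : Pf ν < P' := by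
    have h1 := hgr' ν
    rw [← hA] at h1
    have h2 : 0 < Ce * A ^ (2 * ν) * Qf ν := by positivity
    rw [hP']
    linarith
  have hQQ : ∀ x : ℕ, cg (m := s x + 1) μ L i j k β q (β / 2) (pin i (eT τ)) [] (pin i (eT τ))
      (List.replicate (2 * ν) (1, 0)) = cg (m := s x + 1) μ L i j k β q (β / 2) (pin i 0) []
        (pin i 0) (List.replicate (2 * ν) (1, 0)) := fun x =>
    cg_pin_tr μ q (β / 2) [] (List.replicate (2 * ν) (1, 0)) (eT τ)
  have hPQ : ∀ x : ℕ, cg (m := s x + 1) μ L i j k β q (β / 2) (pin i (eT τ)) [] (pin i (eT τ))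
      (List.replicate (2 * ν) (0, 1)) = cg (m := s x + 1) μ L i j k β q (β / 2) (pin i 0) []
        (pin i 0) (List.replicate (2 * ν) (0, 1)) := fun x =>
    cg_pin_tr μ q (β / 2) [] (List.replicate (2 * ν) (0, 1)) (eT τ)
  have hmain : (Qf ν / ((1 + c0) ^ r * P')) ^ t * Qf ν ≤ w := by
    refine le_of_tendsto_of_tendsto ((((hQl ν).div_const ((1 + c0) ^ r * P')).pow t).mul
      (hQl ν)) hw ?_
    filter_upwards [hbig 2, hbig (3 * 2 ^ q), hbig R, hbig t,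
      (hPl ν).eventually_le_const hPP, (hQl ν).eventually_const_lt (hQ0 ν)]
      with x h1 h2 h3 h4 h5 h6
    have h8 : 3 * 2 ^ q ≤ 2 * (s x + 1) := by omega
    have h9 : 2 * ν * 2 ^ (q + 1) + r ≤ 2 * (s x + 1) := by
      rw [← hRr]; omega
    have h7 := (chain_energy μ (L := L) hij hik hjk h1 hβ0 hiτ hjτ hkτ h8 h9 (z := eT τ)
      (eT_same τ) rfl rfl hc0 (P := P') rfl
      (by rw [hPQ]; exact h5) (by rw [hQQ]; exact h6) hP'0).2 t h4
    rw [hQQ] at h7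
    exact h7
  refine le_trans ?_ hmain
  rw [mul_comm]
  refine mul_le_mul_of_nonneg_right ?_ hQν.le
  -- the rate
  have hrate2 : Real.exp (-(22176 * cN N / c1 ^ 2 * Real.log β / β ^ 3 * R)) ≤
      Qf ν / ((1 + c0) ^ r * P') := by
    have h1 : Qf ν / ((1 + c0) ^ r * P') = ((1 + c0) ^ r * (2 * Ce) * A ^ (2 * ν))⁻¹ := by
      rw [hP']; field_simp
    rw [h1, Real.exp_neg]
    refine inv_anti₀ (by positivity) ?_
    have h2 : (1 + c0) ^ r ≤ Real.exp (r * c0) := by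
      rw [Real.exp_nat_mul]
      refine pow_le_pow_left₀ (by linarith) ?_ _
      have := Real.add_one_le_exp c0
      linarith
    have h3 : 2 * Ce = Real.exp (Real.log (2 * Ce)) := (Real.exp_log (by positivity)).symm
    have h4 : A ^ (2 * ν) ≤ Real.exp ((2 * ν : ℕ) * (65 * e)) := by
      rw [Real.exp_nat_mul]
      refine pow_le_pow_left₀ hA0.le ?_ _
      rw [hA]
      have h5 : 1 + e / (1 / 64) ≤ Real.exp (64 * e) := by
        have := Real.add_one_le_exp (64 * e)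
        have h6 : e / (1 / 64) = 64 * e := by ring
        linarith
      calc (1 + e / (1 / 64)) * Real.exp e ≤ Real.exp (64 * e) * Real.exp e :=
            mul_le_mul_of_nonneg_right h5 (Real.exp_pos _).le
        _ = Real.exp (65 * e) := by rw [← Real.exp_add]; congr 1; ring
    have h7 : (1 + c0) ^ r * (2 * Ce) * A ^ (2 * ν) ≤
        Real.exp (r * c0 + Real.log (2 * Ce) + (2 * ν : ℕ) * (65 * e)) := by
      rw [Real.exp_add, Real.exp_add, ← h3]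
      exact mul_le_mul (mul_le_mul_of_nonneg_right h2 (by positivity)) h4 (by positivity)
        (by positivity)
    refine h7.trans (Real.exp_le_exp.2 ?_)
    -- arithmetic
    have h8 : (r : ℝ) * c0 ≤ 2 ^ (q + 2) * c0 := by
      refine mul_le_mul_of_nonneg_right ?_ hc00.le
      have : (r : ℝ) ≤ ((2 ^ (q + 2) : ℕ) : ℝ) := by exact_mod_cast hr2.le
      simpa using this
    have h9 : Real.log (2 * Ce) ≤ |Real.log (2 * Ce)| := le_abs_self _
    have h2q : (0 : ℝ) < 2 ^ (q + 1) := by positivity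
    have h10 : (2 ^ (q + 2) * c0 + |Real.log (2 * Ce)|) ≤ e * R / 2 ^ (q + 1) := by
      have h11 : (2 ^ (q + 2) * c0 + |Real.log (2 * Ce)|) * 2 ^ (q + 1) / e ≤ R :=
        hR₀.trans (by exact_mod_cast hR)
      rw [div_le_iff₀ he0] at h11
      rw [le_div_iff₀ h2q]
      linarith
    have h12 : ((2 * ν : ℕ) : ℝ) * 2 ^ (q + 1) ≤ R := by
      have h13 : 2 * ν * 2 ^ (q + 1) ≤ R := by omega
      exact_mod_cast h13
    have h13 : ((2 * ν : ℕ) : ℝ) * (65 * e) ≤ 65 * e * R / 2 ^ (q + 1) := by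
      rw [le_div_iff₀ h2q]
      nlinarith
    have h14 : e * R / 2 ^ (q + 1) + 65 * e * R / 2 ^ (q + 1) = (66 * e / 2 ^ (q + 1)) * R := by
      ring
    have h15 := mul_le_mul_of_nonneg_right hrate (Nat.cast_nonneg R : (0 : ℝ) ≤ R)
    linarith
  have h16 := pow_le_pow_left₀ (Real.exp_pos _).le hrate2 t
  refine le_trans (le_of_eq ?_) h16
  rw [← Real.exp_nat_mul]
  congr 1; ring

/-- **The states of the chains in the infinite volume.** -/
theorem soft_zl' (hN : 1 ≤ N) (hd : 4 ≤ d) : ∀ β : ℝ, tO N d ≤ β → ∀ i τ : Fin d, i ≠ τ →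
      ∀ s : ℕ → ℕ, Tendsto s atTop atTop → ∃ R₀ : ℕ, ∀ R : ℕ, R₀ ≤ R →
      ∃ (M : ℕ) (c : Fin M → ℝ) (w : Fin M → List (Fin d × Bool)),
        (∀ p, dz 0 (w p) = Pi.single i (R : ℤ) ∧ (∀ e ∈ w p, e.1 ≠ τ) ∧
          (w p).length ≤ 3 * R) ∧
        ∃ a : ℝ, 0 < a ∧ ∀ (x : Fin d → ℤ) (t : ℕ) (v : ℝ),
          Tendsto (fun k => EX μ L β fun U : Ed d (2 * (s k + 1)) → G =>
            Gc L τ x (x + Pi.single i (R : ℤ)) c w t (W793.YM.lf U)) atTop (𝓝 v) →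
          a * Real.exp (-(rO N d β * R * t)) ≤ v := by
  classical
  have hmain := soft_state' μ (L := L) (d := d) hN (by omega)
  refine fun β hβ i τ hiτ s hs => ?_
  obtain ⟨j, k, hij, hik, hjk, hjτ, hkτ⟩ := two_dir hd i τ
  obtain ⟨q, R₀, hq⟩ := hmain β hβ i j k τ hij hik hjk hiτ hjτ hkτ s hs
  refine ⟨R₀, fun R hR => ?_⟩
  obtain ⟨n, r, hRr, a, ha, H⟩ := hq R hR
  obtain ⟨J, hJ⟩ : ∃ J : Type, J = {ω : Ch q n // dz 0 (sCh i j k q n ω) =
    Pi.single i ((n * 2 ^ (q + 1) : ℕ) : ℤ)} := ⟨_, rfl⟩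
  subst hJ
  obtain ⟨e⟩ : Nonempty (Fin (Fintype.card {ω : Ch q n // dz 0 (sCh i j k q n ω) =
      Pi.single i ((n * 2 ^ (q + 1) : ℕ) : ℤ)}) ≃ {ω : Ch q n // dz 0 (sCh i j k q n ω) =
      Pi.single i ((n * 2 ^ (q + 1) : ℕ) : ℤ)}) := ⟨(Fintype.equivFin _).symm⟩
  refine ⟨_, fun _ => (Fintype.card (Ch q n) : ℝ)⁻¹, fun p => sCh i j k q n (e p).1 ++
    List.replicate r (i, true), fun p => ⟨?_, ?_, ?_⟩, a, ha, fun x t v hv => ?_⟩
  · rw [dz_append, (e p).2, dz_rep, ← Pi.single_add, hRr]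
    push_cast; rfl
  · intro s hs'
    rw [List.mem_append] at hs'
    rcases hs' with h | h
    · exact dir_sCh hij hik hjk hiτ hjτ hkτ q n _ s h
    · rw [List.eq_of_mem_replicate h]
      exact hiτ
  · rw [List.length_append, List.length_replicate]
    have h1 := length_sCh hij hik hjk q n (e p).1
    have h2 : n * (6 * 2 ^ q) = 3 * (n * 2 ^ (q + 1)) := by rw [pow_succ]; ring
    rw [h2] at h1
    omega
  · refine H t v ?_
    have hv' := hv.mono_left Nat.hyperfilter_le_atTop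
    refine hv'.congr' ?_
    have hbig : ∀ᶠ x in (hyperfilter ℕ : Filter ℕ),
        n * (6 * 2 ^ q) + n * 2 ^ (q + 1) ≤ s x := by
      have h1 : ∀ᶠ r in atTop, n * (6 * 2 ^ q) + n * 2 ^ (q + 1) ≤ s r :=
        hs.eventually_ge_atTop _
      exact h1.filter_mono Nat.hyperfilter_le_atTop
    filter_upwards [hbig] with b hb
    exact torus_eq μ (L := L) (m := s b + 1) hij hik hjk hiτ hRr (by omega) e β _ t x

end

end Pool.Agent.H55.YM
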