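import Mathlib
import Pool.Agent.H55.YM.Rate

/-!
# Wilson loops with small static energy
-/

open MeasureTheory Matrix Filter
open scoped Matrix.Norms.Frobenius Topology
open Pool.Agent.H906R3.YM hiding Pl
open Pool.Agent.W793.YM hiding dest
open Pool.Agent.TH618.YM Pool.Agent.Y15

namespace Pool.Agent.H55.YM

set_option linter.unusedSectionVars false
set_option linter.unusedVariables false

noncomputable section

variable {G : Type*} [Group G] [TopologicalSpace G]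
  [IsTopologicalGroup G] [CompactSpace G] [SecondCountableTopology G] [MeasurableSpace G]
  [BorelSpace G] (μ : Measure G) [IsProbabilityMeasure μ] [μ.IsMulLeftInvariant]
  [μ.IsMulRightInvariant] [μ.IsInvInvariant] {N n' : ℕ} {L : LD G N n'}
  {d : ℕ}

/-- **Wilson loops with small static energy.** -/
theorem soft_path' (hN : 1 ≤ N) (hd : 4 ≤ d) : ∀ β : ℝ, tO N d ≤ β → ∀ i τ : Fin d, i ≠ τ →
      ∀ s : ℕ → ℕ, Tendsto s atTop atTop → ∀ Φ : ((Ez d → G) → ℝ) → ℝ,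
      (∀ F, Continuous F → Tendsto (fun k => EX μ L β fun U : Ed d (2 * (s k + 1)) → G =>
        F (W793.YM.lf U)) atTop (𝓝 (Φ F))) → ∃ R₀ : ℕ, ∀ R : ℕ, R₀ ≤ R →
      ∃ w : List (Fin d × Bool), dz 0 w = Pi.single i (R : ℤ) ∧ (∀ e ∈ w, e.1 ≠ τ) ∧
        w.length ≤ 3 * R ∧ ∃ V : ℝ, 0 ≤ V ∧ V ≤ rO N d β * R ∧
        ∀ x : Fin d → ℤ, (∀ t, 0 < Φ (Wz L τ x w t) / N) ∧
          Tendsto (fun t : ℕ => -Real.log (Φ (Wz L τ x w t) / N) / t) atTop (𝓝 V) := by
  classical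
  have hmain := soft_zl' μ (L := L) (d := d) hN hd
  refine fun β hβ i τ hiτ s hs Φ hΦ => ?_
  have hβ₀ := tO_three N d
  obtain ⟨R₀, hR₀⟩ := hmain β hβ i τ hiτ s hs
  have hβ0 : 0 ≤ β := by linarith
  have hN0 : (0 : ℝ) < N := by exact_mod_cast hN
  refine ⟨R₀, fun R hR => ?_⟩
  obtain ⟨M, c, w, hw, a, ha, H⟩ := hR₀ R hR
  obtain ⟨E, hE⟩ : ∃ E : ℝ, E = rO N d β * R := ⟨_, rfl⟩
  obtain ⟨D, hD⟩ : ∃ D : Fin d → ℤ, D = Pi.single i (R : ℤ) := ⟨_, rfl⟩
  have hDτ : D τ = 0 := by rw [hD, Pi.single_eq_of_ne (Ne.symm hiτ)]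
  have hw1 : ∀ p, dz 0 (w p) = D := fun p => by rw [hD]; exact (hw p).1
  have hw2 : ∀ p, ∀ e ∈ w p, e.1 ≠ τ := fun p => (hw p).2.1
  -- the bound of the correlation
  have h1 : ∀ t : ℕ, a * Real.exp (-(E * t)) ≤ Φ (Gc L τ 0 (0 + D) c w t) := by
    intro t
    rw [hE, hD]
    exact H 0 t _ (hΦ _ (Gc_cont _ _ c t))
  obtain ⟨B, hB⟩ : ∃ B : ℝ, B = 1 + ∑ p, c p * c p := ⟨_, rfl⟩
  have hcB : ∀ p, c p * c p ≤ B := by
    intro p
    rw [hB]
    have := Finset.single_le_sum (f := fun p => c p * c p) (fun q _ => mul_self_nonneg (c q))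
      (Finset.mem_univ p)
    linarith
  have hB0 : 0 < B := by
    rw [hB]
    have := Finset.sum_nonneg (s := (Finset.univ : Finset (Fin M)))
      (f := fun p => c p * c p) fun q _ => mul_self_nonneg (c q)
    linarith
  have hKnn : ∀ (v : Fin M → ℝ) (t : ℕ),
      0 ≤ ∑ p, ∑ q, v p * v q * Φ (Kf L τ 0 (0 + D) w t p q) := by
    intro v t
    rw [← Phi_quad μ hΦ]
    exact fam_nn μ hβ0 hs hΦ hDτ hw1 hw2 0 v t
  have hKp : ∀ (p : Fin M) (t : ℕ), 0 ≤ Φ (Kf L τ 0 (0 + D) w t p p) := by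
    intro p t
    have h2 := hKnn (Pi.single p 1) t
    have h3 : (∑ a, ∑ q, (Pi.single p 1 : Fin M → ℝ) a * (Pi.single p 1 : Fin M → ℝ) q *
        Φ (Kf L τ 0 (0 + D) w t a q)) = Φ (Kf L τ 0 (0 + D) w t p p) := by
      rw [Finset.sum_eq_single p, Finset.sum_eq_single p]
      · rw [Pi.single_eq_same]; ring
      · intro b _ hb
        rw [Pi.single_eq_of_ne hb]; ring
      · intro h; exact absurd (Finset.mem_univ _) h
      · intro b _ hb
        refine Finset.sum_eq_zero fun q _ => ?_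
        rw [Pi.single_eq_of_ne hb]; ring
      · intro h; exact absurd (Finset.mem_univ _) h
    rw [h3] at h2
    exact h2
  have h2 : ∀ t : ℕ, ∃ p, a / (B * ((M : ℝ) + 1) ^ 2) * Real.exp (-(E * t)) ≤
      Φ (Kf L τ 0 (0 + D) w t p p) := by
    intro t
    by_contra hcon
    push Not at hcon
    have h3 := h1 t
    rw [Phi_quad μ hΦ] at h3
    have h4 := quad_le c (fun p q => Φ (Kf L τ 0 (0 + D) w t p q)) fun v => hKnn v t
    have hM : (0 : ℝ) < (M : ℝ) + 1 := by positivity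
    have h5 : (∑ p, c p * c p * Φ (Kf L τ 0 (0 + D) w t p p)) ≤
        ∑ p : Fin M, a / ((M : ℝ) + 1) ^ 2 * Real.exp (-(E * t)) := by
      refine Finset.sum_le_sum fun p _ => ?_
      calc c p * c p * Φ (Kf L τ 0 (0 + D) w t p p) ≤
          B * Φ (Kf L τ 0 (0 + D) w t p p) := mul_le_mul_of_nonneg_right (hcB p) (hKp p t)
        _ ≤ B * (a / (B * ((M : ℝ) + 1) ^ 2) * Real.exp (-(E * t))) :=
            mul_le_mul_of_nonneg_left (hcon p).le hB0.le
        _ = _ := by field_simp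
    rw [Finset.sum_const, Finset.card_univ, Fintype.card_fin, nsmul_eq_mul] at h5
    rw [Fintype.card_fin] at h4
    have h6 : (M : ℝ) * (M * (a / ((M : ℝ) + 1) ^ 2 * Real.exp (-(E * t)))) <
        a * Real.exp (-(E * t)) := by
      have h7 : (M : ℝ) * (M * (a / ((M : ℝ) + 1) ^ 2 * Real.exp (-(E * t)))) =
          ((M : ℝ) ^ 2 / ((M : ℝ) + 1) ^ 2) * (a * Real.exp (-(E * t))) := by ring
      rw [h7]
      have h8 : (M : ℝ) ^ 2 / ((M : ℝ) + 1) ^ 2 < 1 := by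
        rw [div_lt_one (by positivity)]
        have : (0 : ℝ) ≤ M := Nat.cast_nonneg M
        nlinarith
      have h9 : 0 < a * Real.exp (-(E * t)) := by positivity
      exact mul_lt_of_lt_one_left h9 h8
    have h10 := mul_le_mul_of_nonneg_left h5 (Nat.cast_nonneg M : (0 : ℝ) ≤ M)
    linarith
  have hfreq : ∃ᶠ t : ℕ in atTop, ∃ p, a / (B * ((M : ℝ) + 1) ^ 2) * Real.exp (-(E * t)) ≤
      Φ (Kf L τ 0 (0 + D) w t p p) := Filter.Frequently.of_forall h2
  obtain ⟨p, hp⟩ := freq_fin hfreq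
  have hDp : dz 0 (w p) = D := hw1 p
  -- the single path
  have hU1 : ∀ q : Unit, dz 0 ((fun _ : Unit => w p) q) = D := fun _ => hDp
  have hU2 : ∀ q : Unit, ∀ e ∈ (fun _ : Unit => w p) q, e.1 ≠ τ := fun _ => hw2 p
  have hG : ∀ (x : Fin d → ℤ) (t : ℕ), Gc L τ x (x + D) (fun _ : Unit => (1 : ℝ))
      (fun _ => w p) t = Wz L τ x (w p) t := by
    intro x t
    rw [← hDp]; exact Gc_unit x (w p) t
  have hK : ∀ t, Kf L τ 0 (0 + D) w t p p = Wz L τ 0 (w p) t := by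
    intro t
    rw [← hG]
    funext V
    unfold Gc Kf
    simp
  have hx : ∀ (x : Fin d → ℤ) (t : ℕ), Φ (Wz L τ x (w p) t) = Φ (Wz L τ 0 (w p) t) := by
    intro x t
    rw [← hG, ← hG]
    exact fam_x μ hs hΦ hU1 x 0 _ t
  obtain ⟨X, hX⟩ : ∃ X : ℕ → ℝ, X = fun t => Φ (Wz L τ 0 (w p) t) / N := ⟨_, rfl⟩
  have hXn : ∀ n, 0 ≤ X n := by
    intro n
    rw [hX]
    have := fam_nn μ hβ0 hs hΦ hDτ hU1 hU2 0 (fun _ : Unit => (1 : ℝ)) n
    rw [hG] at this
    exact div_nonneg this hN0.le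
  have hXlc : ∀ n, X (n + 1) ^ 2 ≤ X n * X (n + 2) := by
    intro n
    rw [hX]
    have := fam_lc μ hβ0 hs hΦ hDτ hU1 hU2 0 (fun _ : Unit => (1 : ℝ)) n
    rw [hG, hG, hG] at this
    simp only
    rw [div_pow, div_mul_div_comm, ← sq (N : ℝ)]
    exact div_le_div_of_nonneg_right this (by positivity)
  have hWc : ∀ t, Continuous (Wz L τ 0 (w p) t) := by
    intro t
    rw [← hG]
    exact Gc_cont _ _ _ t
  have hX1 : ∀ n, X n ≤ 1 := by
    intro n
    rw [hX]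
    simp only
    rw [div_le_one hN0]
    refine le_of_tendsto' (hΦ _ (hWc n)) fun k => ?_
    have h3 := EX_mono μ (L := L) (β := β) (F := fun U : Ed d (2 * (s k + 1)) → G =>
      Wz L τ 0 (w p) n (W793.YM.lf U)) (H := fun _ => (N : ℝ)) ((hWc n).comp lf_cont)
      continuous_const fun U => rt_le _
    rwa [EX_const] at h3
  have hX0 : X 0 = 1 := by
    rw [hX]
    have h3 : Φ (Wz L τ 0 (w p) 0) = N := by
      refine tendsto_nhds_unique (hΦ _ (hWc 0)) ?_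
      simp only [Wz_zero, EX_const]
      exact tendsto_const_nhds
    simp only
    rw [h3, div_self hN0.ne']
  have hXf : ∃ᶠ n : ℕ in atTop, a / (B * ((M : ℝ) + 1) ^ 2) / N * Real.exp (-(E * n)) ≤ X n := by
    refine hp.mono fun n hn => ?_
    rw [hX]
    simp only
    rw [hK] at hn
    rw [le_div_iff₀ hN0]
    calc _ = a / (B * ((M : ℝ) + 1) ^ 2) * Real.exp (-(E * n)) := by field_simp
      _ ≤ _ := hn
  obtain ⟨hpos, V, hV, hV0, hVE⟩ := lc_lim hXn hX1 hXlc hX0 (E := E)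
    (a := a / (B * ((M : ℝ) + 1) ^ 2) / N) (by positivity) hXf
  refine ⟨w p, (hw p).1, hw2 p, (hw p).2.2, V, hV0, by rw [← hE]; exact hVE, fun x => ⟨?_, ?_⟩⟩
  · intro t
    rw [hx x t]
    have := hpos t
    rw [hX] at this
    exact this
  · simp only [hx x]
    rw [hX] at hV
    exact hV

end

end Pool.Agent.H55.YM
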